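import Pool.Agent.Work.MP_dc63d3_gt.Upper

/-!
Support functions of single linkage clusters, averaged over the scale.
-/

set_option autoImplicit false

noncomputable section

namespace Pool.Agent.Work.MP_dc63d3_gt.K

open MeasureTheory

variable {X : Type} [NormedAddCommGroup X] {Ω : Type}

/-- A colouring with `k` colours whose classes have diameter at most `ρ`. -/
def Col (k : ℕ) (A : Finset X) (ρ : ℝ) : Prop :=
  ∃ c : X → Fin k, ∀ x ∈ A, ∀ y ∈ A, c x = c y → dist x y ≤ ρ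

/-- The least such diameter. -/
def Dk (k : ℕ) (A : Finset X) : ℝ := sInf {ρ | 0 ≤ ρ ∧ Col k A ρ}

lemma Dk_spec {k : ℕ} (hk : 1 ≤ k) (A : Finset X) :
    IsLeast {ρ | 0 ≤ ρ ∧ Col k A ρ} (Dk k A) := by
  classical
  let T : Finset ℝ := insert 0 ((A ×ˢ A).image fun p => dist p.1 p.2)
  have red : ∀ ρ, 0 ≤ ρ → Col k A ρ → ∃ ρ' ∈ T.filter (Col k A), ρ' ≤ ρ := by
    rintro ρ h0 ⟨c, hc⟩
    obtain ⟨ρ', h1, h2⟩ := (T.filter (· ≤ ρ)).exists_max_image id
      ⟨0, Finset.mem_filter.2 ⟨Finset.mem_insert_self _ _, h0⟩⟩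
    rw [Finset.mem_filter] at h1
    refine ⟨ρ', Finset.mem_filter.2 ⟨h1.1, c, fun x hx y hy e => h2 _ (Finset.mem_filter.2
      ⟨Finset.mem_insert_of_mem (Finset.mem_image.2 ⟨(x, y), Finset.mk_mem_product hx hy, rfl⟩),
        hc x hx y hy e⟩)⟩, h1.2⟩
  obtain ⟨C, hC⟩ := Metric.isBounded_iff.1 A.finite_toSet.isBounded
  obtain ⟨ρ₀, h0, -⟩ := red (max C 0) (le_max_right _ _)
    ⟨fun _ => ⟨0, hk⟩, fun x hx y hy _ => (hC hx hy).trans (le_max_left _ _)⟩
  obtain ⟨D, h1, h2⟩ := (T.filter (Col k A)).exists_min_image id ⟨ρ₀, h0⟩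
  rw [Finset.mem_filter] at h1
  have h : IsLeast {ρ | 0 ≤ ρ ∧ Col k A ρ} D := by
    refine ⟨⟨?_, h1.2⟩, fun ρ hρ => ?_⟩
    · rcases Finset.mem_insert.1 h1.1 with e | e
      · exact e.ge
      · obtain ⟨p, -, e⟩ := Finset.mem_image.1 e
        exact e ▸ dist_nonneg
    · obtain ⟨ρ', a, b⟩ := red ρ hρ.1 hρ.2
      exact (h2 _ a).trans b
  rwa [Dk, h.csInf_eq]

lemma Dk_zero {k : ℕ} (hk : 1 ≤ k) {A : Finset X} (h : A.card ≤ k) : Dk k A = 0 := by
  classical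
  refine le_antisymm ((Dk_spec hk A).2 ⟨le_rfl, fun x => if hx : x ∈ A then
    Fin.castLE h (A.equivFin ⟨x, hx⟩) else ⟨0, hk⟩, fun x hx y hy e => ?_⟩) (Dk_spec hk A).1.1
  simp only [dif_pos hx, dif_pos hy] at e
  have := A.equivFin.injective (Fin.castLE_injective h e)
  rw [Subtype.mk.injEq] at this
  simp [this]

lemma Dk_le {k : ℕ} (hk : 1 ≤ k) {A B : Finset X} {e : ℝ} (he : 0 ≤ e)
    (h : ∀ x ∈ A, ∃ y ∈ B, dist x y ≤ e) : Dk k A ≤ Dk k B + 2 * e := by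
  choose! φ h1 h2 using h
  obtain ⟨h0, c, hc⟩ := (Dk_spec hk B).1
  refine (Dk_spec hk A).2 ⟨by positivity, c ∘ φ, fun x hx y hy a => ?_⟩
  linarith [dist_triangle4_right x y (φ x) (φ y), hc _ (h1 x hx) _ (h1 y hy) a, h2 x hx, h2 y hy]

/-- An additive map into functions, with a monotone seminorm. -/
structure Sys (n : ℕ) (lam : ℝ) (W : X → Ω → ℝ) (N : (Ω → ℝ) → ℝ) : Prop where
  pos : 0 ≤ lam
  sub : ∀ x y ω, W (x - y) ω = W x ω - W y ω
  add : ∀ f g, N (f + g) ≤ N f + N g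
  smul : ∀ (c : ℝ) f, 0 ≤ c → N (c • f) ≤ c * N f
  mono : ∀ f g, (∀ ω, |f ω| ≤ g ω) → N f ≤ N g
  lin : ∀ x, N |W x| ≤ ‖x‖
  mx : ∀ (S : Finset X) (ρ : ℝ), 0 ≤ ρ → S.card ≤ n → (∀ x ∈ S, ‖x‖ ≤ ρ) →
    ∃ M : Ω → ℝ, (∀ ω, 0 ≤ M ω) ∧ (∀ x ∈ S, ∀ ω, |W x ω| ≤ M ω) ∧ N M ≤ lam * ρ

/-- The support function. -/
def hs (W : X → Ω → ℝ) (C : Finset X) (ω : Ω) : ℝ := sSup ((fun x => W x ω) '' (C : Set X))

lemma le_hs (W : X → Ω → ℝ) {C : Finset X} {x : X} (h : x ∈ C) (ω : Ω) : W x ω ≤ hs W C ω :=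
  le_csSup (C.finite_toSet.image _).bddAbove ⟨x, h, rfl⟩

lemma hs_le {W : X → Ω → ℝ} {C : Finset X} {a : X} (h : a ∈ C) {ω : Ω} {b : ℝ}
    (hb : ∀ x ∈ C, W x ω ≤ b) : hs W C ω ≤ b :=
  csSup_le ⟨_, a, h, rfl⟩ (by rintro _ ⟨x, hx, rfl⟩; exact hb x hx)

lemma hs_mono (W : X → Ω → ℝ) {A : Finset X} {a : X} (h : a ∈ A) {D : ℝ} (hD : 0 ≤ D) (ω : Ω) :
    Monotone fun u => hs W (Cl A (u * D) a) ω :=
  fun _ _ huv => hs_le (self_mem_Cl _ h) fun _ hx => le_hs W (Cl_mono A a hD huv hx) ω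

/-- The averaged support function of the cluster of `a`. -/
def FF (W : X → Ω → ℝ) (k : ℕ) (A : Finset X) (a : X) (ω : Ω) : ℝ :=
  ∫ u in (1 : ℝ)..2, hs W (Cl A (u * Dk k A) a) ω

lemma int_le {ψ : ℝ → ℝ} (h : Monotone ψ) {a b c : ℝ} (hab : a ≤ b) (hc : ψ b ≤ c) :
    ∫ u in a..b, ψ u ≤ (b - a) * c := by
  have := intervalIntegral.integral_mono_on (μ := volume) hab h.intervalIntegrable
    (intervalIntegrable_const (c := c)) fun t ht => (h ht.2).trans hc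
  rwa [intervalIntegral.integral_const, smul_eq_mul] at this

lemma le_int {ψ : ℝ → ℝ} (h : Monotone ψ) {a b c : ℝ} (hab : a ≤ b) (hc : c ≤ ψ a) :
    (b - a) * c ≤ ∫ u in a..b, ψ u := by
  have := intervalIntegral.integral_mono_on (μ := volume) hab (intervalIntegrable_const (c := c))
    h.intervalIntegrable fun t ht => hc.trans (h ht.1)
  rwa [intervalIntegral.integral_const, smul_eq_mul] at this

lemma shift2 {φ ψ : ℝ → ℝ} (hφ : Monotone φ) (hψ : Monotone ψ) {η m lo g : ℝ} (h0 : 0 ≤ η)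
    (h1 : η ≤ 1) (h : ∀ u ∈ Set.Icc (1 : ℝ) 2, φ u ≤ ψ (u + η) + m) (hlo : lo ≤ ψ 1)
    (hhi : ψ 3 ≤ lo + g) : ∫ u in (1 : ℝ)..2, φ u ≤ (∫ u in (1 : ℝ)..2, ψ u) + (m + η * g) := by
  have i1 : IntervalIntegrable (fun t => ψ (t + η)) volume 1 2 :=
    Monotone.intervalIntegrable fun a b h => hψ (by linarith)
  have a := intervalIntegral.integral_mono_on (μ := volume) one_le_two hφ.intervalIntegrable
    (i1.add (intervalIntegrable_const (c := m))) h
  rw [intervalIntegral.integral_add i1 intervalIntegrable_const, intervalIntegral.integral_const,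
    intervalIntegral.integral_comp_add_right, smul_eq_mul] at a
  have b := intervalIntegral.integral_interval_sub_interval_comm' (μ := volume) (f := ψ)
    (a := 1 + η) (b := 2 + η) (c := 1) (d := 2) hψ.intervalIntegrable hψ.intervalIntegrable
    hψ.intervalIntegrable
  have c := int_le hψ (a := 2) (b := 2 + η) (by linarith) ((hψ (by linarith)).trans hhi)
  have d := le_int hψ (a := 1) (b := 1 + η) (by linarith) hlo
  nlinarith

variable {n k : ℕ} {lam : ℝ} {W : X → Ω → ℝ} {N : (Ω → ℝ) → ℝ}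

lemma Sys.zero (hS : Sys n lam W N) : N 0 ≤ 0 := by
  simpa using hS.smul 0 0 le_rfl

lemma size (hS : Sys n lam W N) (hk : 1 ≤ k) {A : Finset X} (hA : A.card ≤ n) {a : X}
    (ha : a ∈ A) : ∃ G : Ω → ℝ, (∀ ω, 0 ≤ G ω) ∧ N G ≤ (4 * k + lam) * Dk k A ∧
      ∀ ω, hs W (Cl A (3 * Dk k A) a) ω ≤ W a ω + G ω := by
  classical
  obtain ⟨h0, c, hc⟩ := (Dk_spec hk A).1
  generalize Dk k A = D at h0 hc ⊢
  let Good : Finset (Fin k) → Prop := fun T => ∃ (p : Fin k → X) (G : Ω → ℝ), c a ∈ T ∧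
    (∀ ω, 0 ≤ G ω) ∧ N G ≤ T.card * (4 * D) ∧
      ∀ j ∈ T, p j ∈ A ∧ c (p j) = j ∧ ∀ ω, W (p j) ω ≤ W a ω + G ω
  obtain ⟨T, hT, hm⟩ := (Finset.univ.filter Good).exists_max_image Finset.card
    ⟨{c a}, Finset.mem_filter.2 ⟨Finset.mem_univ _, fun _ => a, 0, Finset.mem_singleton_self _,
      fun _ => le_rfl, hS.zero.trans (by positivity), fun j hj =>
        ⟨ha, (Finset.mem_singleton.1 hj).symm, fun _ => by simp⟩⟩⟩
  obtain ⟨p, G, g1, g2, g3, g4⟩ := (Finset.mem_filter.1 hT).2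
  have key : ∀ x, Relation.ReflTransGen (fun p q => p ∈ A ∧ q ∈ A ∧ dist p q ≤ 3 * D) a x →
      c x ∈ T := by
    intro x hx
    induction hx with
    | refl => exact g1
    | @tail y z _ hq ih =>
      by_contra hz
      obtain ⟨b1, b2, b3⟩ := g4 _ ih
      have hd : ‖z - p (c y)‖ ≤ 4 * D := by
        rw [← dist_eq_norm]
        linarith [dist_triangle_left z (p (c y)) y, hq.2.2, hc y hq.1 _ b1 b2.symm]
      have := hm (insert (c z) T) (Finset.mem_filter.2 ⟨Finset.mem_univ _,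
        Function.update p (c z) z, G + |W (z - p (c y))|, Finset.mem_insert_of_mem g1,
        fun ω => add_nonneg (g2 ω) (abs_nonneg _), ?_, fun j hj => ?_⟩)
      · rw [Finset.card_insert_of_notMem hz] at this
        omega
      · rw [Finset.card_insert_of_notMem hz]
        push_cast
        linarith [hS.add G |W (z - p (c y))|, hS.lin (z - p (c y))]
      · by_cases e : j = c z
        · subst e
          rw [Function.update_self]
          refine ⟨hq.2.1, rfl, fun ω => ?_⟩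
          have := le_abs_self (W (z - p (c y)) ω)
          simp only [Pi.add_apply, Pi.abs_apply]
          linarith [b3 ω, hS.sub z (p (c y)) ω]
        · rw [Function.update_of_ne e]
          obtain ⟨d1, d2, d3⟩ := g4 j ((Finset.mem_insert.1 hj).resolve_left e)
          refine ⟨d1, d2, fun ω => ?_⟩
          simp only [Pi.add_apply, Pi.abs_apply]
          linarith [d3 ω, abs_nonneg (W (z - p (c y)) ω)]
  obtain ⟨M, m1, m2, m3⟩ := hS.mx ((Cl A (3 * D) a).image fun x => x - p (c x)) D h0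
    (Finset.card_image_le.trans ((Finset.card_le_card (Cl_subset _ _ _)).trans hA)) (by
      intro x hx
      obtain ⟨y, hy, rfl⟩ := Finset.mem_image.1 hx
      obtain ⟨b1, b2, -⟩ := g4 _ (key y (mem_Cl.1 hy).2)
      rw [← dist_eq_norm]
      exact hc y (mem_Cl.1 hy).1 _ b1 b2.symm)
  refine ⟨G + M, fun ω => add_nonneg (g2 ω) (m1 ω), ?_, fun ω => hs_le (self_mem_Cl _ ha)
    fun x hx => ?_⟩
  · have : (T.card : ℝ) ≤ k := by simpa using (Nat.cast_le (α := ℝ)).2 T.card_le_univ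
    nlinarith [hS.add G M]
  · have := le_of_abs_le (m2 _ (Finset.mem_image_of_mem _ hx) ω)
    simp only [Pi.add_apply]
    linarith [(g4 _ (key x (mem_Cl.1 hx).2)).2.2 ω, hS.sub x (p (c x)) ω]

lemma le_FF (W : X → Ω → ℝ) (hk : 1 ≤ k) {A : Finset X} {a : X} (ha : a ∈ A) (ω : Ω) :
    W a ω ≤ FF W k A a ω := by
  have := le_int (hs_mono W ha (Dk_spec hk A).1.1 ω) one_le_two (le_hs W (self_mem_Cl _ ha) ω)
  rw [FF]
  linarith

lemma FF_le (hk : 1 ≤ k) {A : Finset X} {a : X} (ha : a ∈ A) {ω : Ω} {c : ℝ}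
    (h : hs W (Cl A (3 * Dk k A) a) ω ≤ c) : FF W k A a ω ≤ c := by
  have m := hs_mono W ha (Dk_spec hk A).1.1 ω
  have := int_le m one_le_two ((m (by norm_num : (2 : ℝ) ≤ 3)).trans h)
  rw [FF]
  linarith

lemma FF_near (hS : Sys n lam W N) (hk : 1 ≤ k) {A : Finset X} (hA : A.card ≤ n) {a : X}
    (ha : a ∈ A) : N (FF W k A a - W a) ≤ (4 * k + lam) * Dk k A := by
  obtain ⟨G, g1, g2, g3⟩ := size hS hk hA ha
  refine (hS.mono _ G fun ω => ?_).trans g2
  rw [Pi.sub_apply, abs_le]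
  constructor <;> linarith [le_FF W hk ha ω, FF_le hk ha (g3 ω), g1 ω]

lemma FF_eq (W : X → Ω → ℝ) (hk : 1 ≤ k) {A : Finset X} {x y : X} (hx : x ∈ A) (hy : y ∈ A)
    (h : dist x y ≤ Dk k A) : FF W k A x = FF W k A y := by
  funext ω
  refine intervalIntegral.integral_congr fun u hu => ?_
  rw [Set.uIcc_of_le one_le_two] at hu
  rw [Cl_eq hx hy (h.trans (le_mul_of_one_le_left (Dk_spec hk A).1.1 hu.1))]

lemma one_side (hS : Sys n lam W N) (hk : 1 ≤ k) {A B : Finset X} (hA : A.card ≤ n)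
    (hB : B.card ≤ n) {e : ℝ} (he : 0 ≤ e) (h : ∀ x ∈ A, ∃ y ∈ B, dist x y ≤ e) {a b : X}
    (ha : a ∈ A) (hb : b ∈ B) (hab : dist a b ≤ e) : ∃ R : Ω → ℝ, (∀ ω, 0 ≤ R ω) ∧
      N R ≤ (32 * k + 8 * lam + 1) * e ∧ ∀ ω, FF W k A a ω ≤ FF W k B b ω + R ω := by
  classical
  have hD := Dk_le hk he h
  have p1 := (Dk_spec hk A).1.1
  have p2 := (Dk_spec hk B).1.1
  have p3 := hS.pos
  have p4 : (0 : ℝ) ≤ k := k.cast_nonneg
  rcases le_or_gt (Dk k B) (6 * e) with c | c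
  · obtain ⟨G, g1, g2, g3⟩ := size hS hk hA ha
    refine ⟨G + |W (a - b)|, fun ω => add_nonneg (g1 ω) (abs_nonneg _), ?_, fun ω => ?_⟩
    · have := hS.lin (a - b)
      rw [← dist_eq_norm] at this
      have q : (4 * k + lam) * Dk k A ≤ (4 * k + lam) * (8 * e) :=
        mul_le_mul_of_nonneg_left (by linarith) (by positivity)
      nlinarith [hS.add G |W (a - b)|]
    · simp only [Pi.add_apply, Pi.abs_apply]
      linarith [FF_le hk ha (g3 ω), le_FF W hk hb ω, hS.sub a b ω, le_abs_self (W (a - b) ω)]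
  · have p5 : 0 < Dk k B := by linarith
    obtain ⟨G, g1, g2, g3⟩ := size hS hk hB hb
    choose! φ₀ f1 f2 using h
    obtain ⟨φ, f0, f1, f2⟩ : ∃ φ : X → X, φ a = b ∧ (∀ x ∈ A, φ x ∈ B) ∧
        ∀ x ∈ A, dist x (φ x) ≤ e := by
      refine ⟨Function.update φ₀ a b, Function.update_self .., fun x hx => ?_, fun x hx => ?_⟩ <;>
        by_cases q : x = a
      · rwa [q, Function.update_self]
      · rw [Function.update_of_ne q]; exact f1 x hx
      · rwa [q, Function.update_self]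
      · rw [Function.update_of_ne q]; exact f2 x hx
    obtain ⟨M, m1, m2, m3⟩ := hS.mx (A.image fun x => x - φ x) e he
      (Finset.card_image_le.trans hA) (by
        intro x hx
        obtain ⟨y, hy, rfl⟩ := Finset.mem_image.1 hx
        rw [← dist_eq_norm]
        exact f2 y hy)
    obtain ⟨η, e0, e1, e2⟩ : ∃ η : ℝ, 0 ≤ η ∧ η ≤ 1 ∧ η * Dk k B = 6 * e :=
      ⟨6 * e / Dk k B, by positivity, (div_le_one p5).2 c.le, div_mul_cancel₀ _ p5.ne'⟩
    refine ⟨M + η • G, fun ω => add_nonneg (m1 ω) (mul_nonneg e0 (g1 ω)), ?_, fun ω => ?_⟩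
    · have q1 := mul_le_mul_of_nonneg_left g2 e0
      rw [mul_left_comm, e2] at q1
      nlinarith [hS.add M (η • G), hS.smul η G e0, mul_nonneg p4 he, mul_nonneg p3 he]
    · refine shift2 (hs_mono W ha p1 ω) (hs_mono W hb p2 ω) e0 e1
        (fun u hu => hs_le (self_mem_Cl _ ha) fun x hx => ?_) (le_hs W (self_mem_Cl _ hb) ω) (g3 ω)
      have hx' := Cl_map (b := (u + η) * Dk k B) f1 (fun p hp q hq hd => by
        have := dist_triangle4_right (φ p) (φ q) p q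
        rw [dist_comm (φ p) p, dist_comm (φ q) q] at this
        nlinarith [f2 p hp, f2 q hq, hu.1, hu.2]) hx
      rw [f0] at hx'
      have := le_of_abs_le (m2 _ (Finset.mem_image_of_mem _ (Cl_subset _ _ _ hx)) ω)
      linarith [le_hs W hx' ω, hS.sub x (φ x) ω]

lemma two_side (hS : Sys n lam W N) (hk : 1 ≤ k) {A B : Finset X} (hA : A.card ≤ n)
    (hB : B.card ≤ n) {e : ℝ} (he : 0 ≤ e) (h : Near A B e) {a b : X}
    (ha : a ∈ A) (hb : b ∈ B) (hab : dist a b ≤ e) :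
    N (FF W k A a - FF W k B b) ≤ 2 * (32 * k + 8 * lam + 1) * e := by
  obtain ⟨R, r1, r2, r3⟩ := one_side hS hk hA hB he h.1 ha hb hab
  obtain ⟨R', s1, s2, s3⟩ := one_side hS hk hB hA he h.2 hb ha (by rwa [dist_comm])
  have := hS.mono (FF W k A a - FF W k B b) (R + R') fun ω => by
    rw [Pi.sub_apply, Pi.add_apply, abs_le]
    constructor <;> linarith [r1 ω, r3 ω, s1 ω, s3 ω]
  linarith [hS.add R R']

end Pool.Agent.Work.MP_dc63d3_gt.K
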