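import Mathlib

set_option autoImplicit false

namespace Pool.Agent.Work.MP_dc63d3_gt.K

/-- `r` is an `L`-Lipschitz retraction, for the Hausdorff distance, from the nonempty subsets of
`X` with at most `n` points onto those with at most `k` points. -/
def IsRetr {X : Type} [MetricSpace X] (n k : ℕ) (L : ℝ) (r : Finset X → Finset X) : Prop :=
  (∀ s : Finset X, s.Nonempty → s.card ≤ n → (r s).Nonempty ∧ (r s).card ≤ k) ∧
  (∀ s : Finset X, s.Nonempty → s.card ≤ k → r s = s) ∧
  (∀ s t : Finset X, s.Nonempty → s.card ≤ n → t.Nonempty → t.card ≤ n →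
    Metric.hausdorffDist ((r s : Finset X) : Set X) ((r t : Finset X) : Set X) ≤
      L * Metric.hausdorffDist ((s : Finset X) : Set X) ((t : Finset X) : Set X))

end Pool.Agent.Work.MP_dc63d3_gt.K
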