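import Pool.Agent.Work.MP_dc63d3_gt.K.Abs

/-!
Random signs give a system of the required kind in an inner product space.
-/

set_option autoImplicit false

noncomputable section

namespace Pool.Agent.Work.MP_dc63d3_gt.K

open Finset
open scoped RealInnerProductSpace

variable {Ω : Type} [Fintype Ω]

/-- The root mean square. -/
def NN (f : Ω → ℝ) : ℝ := √((∑ ω, f ω ^ 2) / Fintype.card Ω)

/-- The mean of a product. -/
def EE (f g : Ω → ℝ) : ℝ := (∑ ω, f ω * g ω) / Fintype.card Ω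

lemma le_sq {a b : ℝ} (h : a ^ 2 ≤ b ^ 2) (hb : 0 ≤ b) : a ≤ b := (abs_le_of_sq_le_sq' h hb).2

lemma NN_nonneg (f : Ω → ℝ) : 0 ≤ NN f := Real.sqrt_nonneg _

lemma NN_sq (f : Ω → ℝ) : NN f ^ 2 = (∑ ω, f ω ^ 2) / Fintype.card Ω :=
  Real.sq_sqrt (by positivity)

lemma NN_le {f : Ω → ℝ} {c : ℝ} (hc : 0 ≤ c) (h : ∑ ω, f ω ^ 2 ≤ c ^ 2 * Fintype.card Ω) :
    NN f ≤ c :=
  Real.sqrt_le_iff.2 ⟨hc, div_le_of_le_mul₀ (by positivity) (by positivity) h⟩

lemma EE_le (f g : Ω → ℝ) : |EE f g| ≤ NN f * NN g := by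
  refine abs_le_of_sq_le_sq' ?_ (mul_nonneg (NN_nonneg _) (NN_nonneg _)) |> abs_le.2
  rw [mul_pow, NN_sq, NN_sq, EE, div_pow, div_mul_div_comm, ← sq]
  exact div_le_div_of_nonneg_right (sum_mul_sq_le_sq_mul_sq _ _ _) (by positivity)

lemma NN_add (f g : Ω → ℝ) : NN (f + g) ≤ NN f + NN g := by
  refine le_sq ?_ (add_nonneg (NN_nonneg _) (NN_nonneg _))
  have h := le_of_abs_le (EE_le f g)
  have e : NN (f + g) ^ 2 = NN f ^ 2 + 2 * EE f g + NN g ^ 2 := by
    simp only [NN_sq, EE, Pi.add_apply, add_sq, sum_add_distrib, mul_assoc, ← mul_sum]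
    ring
  nlinarith

lemma NN_smul (c : ℝ) (f : Ω → ℝ) (hc : 0 ≤ c) : NN (c • f) ≤ c * NN f := by
  refine le_sq (le_of_eq ?_) (mul_nonneg hc (NN_nonneg _))
  simp only [mul_pow, NN_sq, Pi.smul_apply, smul_eq_mul, ← mul_sum]
  ring

lemma NN_mono (f g : Ω → ℝ) (h : ∀ ω, |f ω| ≤ g ω) : NN f ≤ NN g :=
  Real.sqrt_le_sqrt (div_le_div_of_nonneg_right
    (sum_le_sum fun ω _ => sq_le_sq' (abs_le.1 (h ω)).1 (abs_le.1 (h ω)).2) (by positivity))

/-- The sign of a bit. -/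
def sg (b : Bool) : ℝ := if b then 1 else -1

variable {κ : Type} [Fintype κ] [DecidableEq κ]

lemma sg_orth (i j : κ) : ∑ σ : κ → Bool, sg (σ i) * sg (σ j) =
    if i = j then (Fintype.card (κ → Bool) : ℝ) else 0 := by
  split_ifs with h
  · subst h
    have : ∀ b, sg b * sg b = 1 := fun b => by cases b <;> simp [sg]
    simp [this]
  · have inv : Function.Involutive fun σ : κ → Bool => Function.update σ i (!σ i) := fun σ => by
      simp
    have := Equiv.sum_comp (inv.toPerm _) fun σ => sg (σ i) * sg (σ j)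
    have e : ∀ σ : κ → Bool, sg (inv.toPerm _ σ i) * sg (inv.toPerm _ σ j) =
        -(sg (σ i) * sg (σ j)) := fun σ => by
      simp only [Function.Involutive.coe_toPerm, Function.update_self,
        Function.update_of_ne (Ne.symm h)]
      cases σ i <;> cases σ j <;> simp [sg]
    simp only [e, sum_neg_distrib] at this
    linarith

lemma mgf (c : κ → ℝ) : ∑ σ : κ → Bool, Real.exp (∑ i, sg (σ i) * c i) ≤
    Real.exp ((∑ i, c i ^ 2) / 2) * Fintype.card (κ → Bool) := by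
  simp only [Real.exp_sum]
  have := prod_univ_sum (fun _ : κ => (univ : Finset Bool)) fun i b => Real.exp (sg b * c i)
  rw [Fintype.piFinset_univ] at this
  rw [← this, sum_div, Real.exp_sum, Fintype.card_pi, Nat.cast_prod, ← prod_mul_distrib]
  refine prod_le_prod (fun i _ => by positivity) fun i _ => ?_
  have := Real.cosh_le_exp_half_sq (c i)
  rw [Real.cosh_eq] at this
  simp [sg]
  linarith

lemma sq_le_exp (y : ℝ) {s : ℝ} (hs : 1 ≤ s) :
    y ^ 2 ≤ 9 / 2 * s ^ 2 + 4 * (Real.exp (s * y) + Real.exp (-(s * y))) / Real.exp (3 / 2 * s ^ 2) := by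
  wlog h : 0 ≤ y generalizing y
  · have := this (-y) (by linarith)
    rwa [neg_sq, mul_neg, neg_neg, add_comm (Real.exp _)] at this
  have p : 0 ≤ Real.exp (-(s * y)) / Real.exp (3 / 2 * s ^ 2) := by positivity
  have e : Real.exp (s * y) / Real.exp (3 / 2 * s ^ 2) = Real.exp (s * (y - 3 / 2 * s)) := by
    rw [← Real.exp_sub]; congr 1; ring
  rw [mul_div_assoc, add_div, e]
  rcases le_total y (3 / 2 * s) with c | c
  · nlinarith [Real.exp_pos (s * (y - 3 / 2 * s))]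
  · obtain ⟨w, rfl⟩ : ∃ w, y = 3 / 2 * s + w := ⟨y - 3 / 2 * s, by ring⟩
    have w0 : 0 ≤ w := by linarith
    rw [add_sub_cancel_left]
    have := Real.quadratic_le_exp_of_nonneg (x := s * w) (by positivity)
    have q : w ^ 2 ≤ (s * w) ^ 2 := pow_le_pow_left₀ w0 (le_mul_of_one_le_left w0 hs) 2
    nlinarith [sq_nonneg (3 / 2 * s - w), mul_nonneg (zero_le_one.trans hs) w0]

variable {H : Type} [NormedAddCommGroup H] [InnerProductSpace ℝ H]

/-- The random sign sum of the coordinates. -/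
def WW (v : κ → H) (x : H) (σ : κ → Bool) : ℝ := ∑ i, sg (σ i) * ⟪v i, x⟫

lemma EE_WW (v : κ → H) (x u : H) : EE (WW v x) (WW v u) = ∑ i, ⟪v i, x⟫ * ⟪v i, u⟫ := by
  rw [EE, div_eq_iff (by positivity)]
  simp only [WW, sum_mul_sum]
  rw [sum_comm, sum_mul]
  refine sum_congr rfl fun i _ => ?_
  rw [sum_comm]
  have : ∀ j, ∑ σ : κ → Bool, sg (σ i) * ⟪v i, x⟫ * (sg (σ j) * ⟪v j, u⟫) =
      ⟪v i, x⟫ * ⟪v j, u⟫ * ∑ σ : κ → Bool, sg (σ i) * sg (σ j) := fun j => by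
    rw [mul_sum]
    exact sum_congr rfl fun _ _ => by ring
  simp [this, sg_orth]

lemma bessel {v : κ → H} (hv : Orthonormal ℝ v) (x : H) : ∑ i, ⟪v i, x⟫ ^ 2 ≤ ‖x‖ ^ 2 := by
  simpa using hv.sum_inner_products_le (s := univ) x

lemma NN_WW {v : κ → H} (hv : Orthonormal ℝ v) (x : H) : NN |WW v x| ≤ ‖x‖ := by
  refine le_sq ?_ (norm_nonneg _)
  have := EE_WW v x x
  simp only [EE, ← sq] at this
  simp only [NN_sq, Pi.abs_apply, sq_abs, this]
  exact bessel hv x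

lemma sys {v : κ → H} (hv : Orthonormal ℝ v) {n m : ℕ} (h : n ≤ 2 ^ m ∨ Fintype.card κ ≤ m) :
    Sys n (3 * √(m + 1)) (WW v) NN := by
  refine ⟨by positivity, fun x y σ => by simp [WW, inner_sub_right, mul_sub], NN_add, NN_smul,
    NN_mono, NN_WW hv, fun S ρ h0 hS hρ => ?_⟩
  obtain ⟨s, s1, s2, s3⟩ : ∃ s : ℝ, 1 ≤ s ∧ s ^ 2 = m + 1 ∧ √(m + 1) = s :=
    ⟨_, Real.one_le_sqrt.2 (by simp), Real.sq_sqrt (by positivity), rfl⟩
  rw [s3]
  have hb : ∀ x ∈ S, ∑ i, ⟪v i, x⟫ ^ 2 ≤ ρ ^ 2 := fun x hx =>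
    (bessel hv x).trans (pow_le_pow_left₀ (norm_nonneg _) (hρ x hx) 2)
  have triv : ∀ x ∈ S, ∀ σ, WW v x σ ^ 2 ≤ Fintype.card κ * ρ ^ 2 := fun x hx σ => by
    refine (sum_mul_sq_le_sq_mul_sq _ _ _).trans (mul_le_mul (le_of_eq ?_) (hb x hx)
      (by positivity) (by positivity))
    have : ∀ b, sg b ^ 2 = 1 := fun b => by cases b <;> simp [sg]
    simp [this]
  by_cases c : (Fintype.card κ : ℝ) * ρ ^ 2 ≤ (s * ρ) ^ 2
  · refine ⟨fun _ => s * ρ, fun _ => by positivity, fun x hx σ =>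
      abs_le.2 (abs_le_of_sq_le_sq' ((triv x hx σ).trans c) (by positivity)),
      NN_le (by positivity) ?_⟩
    rw [sum_const, card_univ, nsmul_eq_mul, mul_comm]
    exact mul_le_mul_of_nonneg_right (pow_le_pow_left₀ (by positivity) (by nlinarith) 2)
      (by positivity)
  have r0 : 0 < ρ := h0.lt_of_ne fun e => c (by simp [← e])
  have hn : n ≤ 2 ^ m := h.resolve_right fun e => c (by
    have : (Fintype.card κ : ℝ) ≤ m := by exact_mod_cast e
    rw [mul_pow, s2]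
    exact mul_le_mul_of_nonneg_right (by linarith) (by positivity))
  let q : H → (κ → Bool) → ℝ := fun x σ =>
    Real.exp (s * (WW v x σ / ρ)) + Real.exp (-(s * (WW v x σ / ρ)))
  have q0 : ∀ x σ, 0 ≤ q x σ := fun x σ => by positivity
  have hq : ∀ x ∈ S, ∑ σ, q x σ ≤ 2 * (Real.exp (s ^ 2 / 2) * Fintype.card (κ → Bool)) := by
    intro x hx
    have k : ∀ t : ℝ, t ^ 2 = s ^ 2 → ∑ σ, Real.exp (t * (WW v x σ / ρ)) ≤
        Real.exp (s ^ 2 / 2) * Fintype.card (κ → Bool) := fun t ht => by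
      refine le_trans (le_of_eq (sum_congr rfl fun σ _ => ?_))
        ((mgf fun i => t / ρ * ⟪v i, x⟫).trans (mul_le_mul_of_nonneg_right
          (Real.exp_le_exp.2 ?_) (by positivity)))
      · rw [WW, sum_div, mul_sum]
        exact congrArg _ (sum_congr rfl fun _ _ => by ring)
      · simp only [mul_pow, div_pow, ← mul_sum, ht]
        have := mul_le_mul_of_nonneg_left (hb x hx) (show 0 ≤ s ^ 2 / ρ ^ 2 by positivity)
        rw [div_mul_cancel₀ _ (by positivity)] at this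
        linarith
    have k2 := k (-s) (neg_sq s)
    simp only [neg_mul] at k2
    rw [sum_add_distrib]
    linarith [k s rfl]
  refine ⟨fun σ => ρ * √(9 / 2 * s ^ 2 + 4 * (∑ x ∈ S, q x σ) / Real.exp (3 / 2 * s ^ 2)),
    fun _ => by positivity, fun x hx σ => ?_, NN_le (by positivity) ?_⟩
  · rw [← div_le_iff₀' r0, ← abs_of_pos r0, ← abs_div]
    refine Real.abs_le_sqrt ((sq_le_exp _ s1).trans ?_)
    have := single_le_sum (fun y _ => q0 y σ) hx
    gcongr
  · have e : ∀ σ, (ρ * √(9 / 2 * s ^ 2 + 4 * (∑ x ∈ S, q x σ) / Real.exp (3 / 2 * s ^ 2))) ^ 2 =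
        ρ ^ 2 * (9 / 2 * s ^ 2) + ρ ^ 2 * 4 / Real.exp (3 / 2 * s ^ 2) * ∑ x ∈ S, q x σ := by
      intro σ
      have := sum_nonneg fun y (_ : y ∈ S) => q0 y σ
      rw [mul_pow, Real.sq_sqrt (by positivity)]
      ring
    simp only [e, sum_add_distrib, ← mul_sum]
    rw [sum_comm, sum_const, card_univ, nsmul_eq_mul]
    have a := sum_le_card_nsmul S _ _ hq
    have b : (S.card : ℝ) * 2 ≤ Real.exp (s ^ 2) := by
      have b1 : (S.card : ℝ) ≤ 2 ^ m := by exact_mod_cast hS.trans hn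
      have b2 : (2 : ℝ) ^ (m + 1) ≤ Real.exp 1 ^ (m + 1) :=
        pow_le_pow_left₀ zero_le_two (by linarith [Real.add_one_le_exp 1]) _
      rw [← Real.exp_nat_mul, mul_one, pow_succ] at b2
      rw [s2]
      push_cast at b2
      linarith
    have d : Real.exp (3 / 2 * s ^ 2) = Real.exp (s ^ 2) * Real.exp (s ^ 2 / 2) := by
      rw [← Real.exp_add]; congr 1; ring
    have f : ∑ x ∈ S, ∑ σ, q x σ ≤ Real.exp (3 / 2 * s ^ 2) * Fintype.card (κ → Bool) := by
      rw [nsmul_eq_mul, ← mul_assoc] at a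
      rw [d, mul_assoc]
      exact a.trans (mul_le_mul_of_nonneg_right b (by positivity))
    have g := mul_le_mul_of_nonneg_left f
      (show 0 ≤ ρ ^ 2 * 4 / Real.exp (3 / 2 * s ^ 2) by positivity)
    rw [← mul_assoc, div_mul_cancel₀ _ (by positivity)] at g
    have p : 0 ≤ ρ ^ 2 * Fintype.card (κ → Bool) := by positivity
    have s4 : 1 ≤ s ^ 2 := one_le_pow₀ s1
    nlinarith [mul_le_mul_of_nonneg_left s4 p]

end Pool.Agent.Work.MP_dc63d3_gt.K
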