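import Pool.Agent.Work.MP_dc63d3_gt.K.Defs
import Pool.Agent.Work.MP_dc63d3_gt.K.Sign

/-!
Passage to the limit along an orthonormal basis, and the retraction.
-/

set_option autoImplicit false

noncomputable section

namespace Pool.Agent.Work.MP_dc63d3_gt.K

open Finset Filter Topology
open scoped RealInnerProductSpace

variable {H : Type} [NormedAddCommGroup H] [InnerProductSpace ℝ H] [CompleteSpace H]

lemma weak_lim {I : Type} (U : Ultrafilter I) (l : I → H → ℝ) (K : ℝ)
    (ha : ∀ j u v, l j (u + v) = l j u + l j v) (hs : ∀ j (c : ℝ) u, l j (c • u) = c * l j u)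
    (h : ∀ j u, |l j u| ≤ K * ‖u‖) : ∃ z : H, ∀ u, Tendsto (fun j => l j u) U (𝓝 ⟪z, u⟫) := by
  have ex : ∀ u, ∃ y, Tendsto (fun j => l j u) U (𝓝 y) := fun u => by
    obtain ⟨y, -, hy⟩ := (isCompact_Icc (a := -(K * ‖u‖)) (b := K * ‖u‖)).ultrafilter_le_nhds
      (U.map fun j => l j u) (le_principal_iff.2 (mem_map.2 (univ_mem' fun j => abs_le.1 (h j u))))
    exact ⟨y, hy⟩
  choose g hg using ex
  let L : H →ₗ[ℝ] ℝ := ⟨⟨g, fun u v => tendsto_nhds_unique (hg _)
    (by simpa only [ha] using (hg u).add (hg v))⟩, fun c u => tendsto_nhds_unique (hg _)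
    (by simpa [hs] using (hg u).const_mul c)⟩
  refine ⟨(InnerProductSpace.toDual ℝ H).symm
    (L.mkContinuous K fun u => le_of_tendsto' (hg u).abs (h · u)), fun u => ?_⟩
  rw [InnerProductSpace.toDual_symm_apply]
  exact hg u

theorem centre {k : ℕ} (hk : 1 ≤ k) :
    ∃ z : Finset H → H → H,
      (∀ A, ∀ x ∈ A, ∀ y ∈ A, dist x y ≤ Dk k A → z A x = z A y) ∧
      (∀ A, A.card ≤ k → ∀ a ∈ A, z A a = a) ∧
      ∀ n m : ℕ, n ≤ 2 ^ m ∨ Module.rank ℝ H ≤ m → ∀ A B e, A.card ≤ n → B.card ≤ n → 0 ≤ e →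
        Near A B e → ∀ a ∈ A, ∀ b ∈ B, dist a b ≤ e →
          dist (z A a) (z B b) ≤ 2 * (32 * k + 8 * (3 * √(m + 1)) + 1) * e := by
  classical
  obtain ⟨w, b, -⟩ := exists_hilbertBasis ℝ H
  let v : (J : Finset w) → J → H := fun J i => b i
  have hv : ∀ J, Orthonormal ℝ (v J) := fun J => b.orthonormal.comp _ Subtype.val_injective
  have hS : ∀ {n m : ℕ}, n ≤ 2 ^ m ∨ Module.rank ℝ H ≤ m → ∀ J,
      Sys n (3 * √(m + 1)) (WW (v J)) NN := fun h J => sys (hv J) (h.imp_right fun a => by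
    have := (hv J).linearIndependent.cardinal_le_rank.trans a
    rw [Cardinal.mk_fintype] at this
    exact_mod_cast this)
  have hS' : ∀ (A : Finset H) J, Sys A.card (3 * √(A.card + 1)) (WW (v J)) NN := fun A =>
    hS (Or.inl Nat.lt_two_pow_self.le)
  let U : Ultrafilter (Finset w) := Ultrafilter.of atTop
  let Lim : ((J : Finset w) → (J → Bool) → ℝ) → H → Prop := fun f y =>
    ∀ u, Tendsto (fun J => EE (f J) (WW (v J) u)) U (𝓝 ⟪y, u⟫)
  have hN : ∀ J u, NN (WW (v J) u) ≤ ‖u‖ := fun J u =>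
    (NN_mono _ _ fun _ => le_rfl).trans (NN_WW (hv J) u)
  have hE : ∀ J f K u, NN f ≤ K → |EE f (WW (v J) u)| ≤ K * ‖u‖ := fun J f K u a =>
    (EE_le _ _).trans (mul_le_mul a (hN J u) (NN_nonneg _) ((NN_nonneg _).trans a))
  have ex : ∀ f K, (∀ J, NN (f J) ≤ K) → Lim f (Classical.epsilon (Lim f)) := fun f K a =>
    Classical.epsilon_spec (weak_lim U _ K
      (fun J u u' => by simp [EE, WW, inner_add_right, mul_add, sum_add_distrib, add_div])
      (fun J c u => by
        simp only [EE, WW, inner_smul_right, mul_left_comm _ c, ← mul_sum, mul_div_assoc])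
      fun J u => hE J _ K u (a J))
  have hd : ∀ f g y y' K, Lim f y → Lim g y' → (∀ J, NN (f J - g J) ≤ K) → dist y y' ≤ K := by
    intro f g y y' K a a' c
    have t := (a (y - y')).sub (a' (y - y'))
    rw [← inner_sub_left, real_inner_self_eq_norm_sq] at t
    have := le_of_tendsto' t fun J => (show _ = _ by
      simp only [EE, Pi.sub_apply, sub_mul, sum_sub_distrib, sub_div]).ge.trans
        (le_of_abs_le (hE J _ K (y - y') (c J)))
    rw [dist_eq_norm]
    have K0 : 0 ≤ K := (NN_nonneg _).trans (c ∅)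
    by_contra q
    nlinarith [not_le.1 q]
  have hW : ∀ a, Lim (fun J => WW (v J) a) a := fun a u => by
    refine Tendsto.mono_left ?_ (Ultrafilter.of_le atTop)
    refine Tendsto.congr (fun J => ?_) (b.hasSum_inner_mul_inner a u)
    rw [EE_WW, ← sum_coe_sort]
    exact sum_congr rfl fun i _ => by rw [real_inner_comm]
  have hF : ∀ (A : Finset H) a, a ∈ A → Lim (fun J => FF (WW (v J)) k A a)
      (Classical.epsilon (Lim fun J => FF (WW (v J)) k A a)) := fun A a ha =>
    ex _ _ fun J => by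
      have := NN_add (FF (WW (v J)) k A a - WW (v J) a) (WW (v J) a)
      rw [sub_add_cancel] at this
      exact this.trans (add_le_add (FF_near (hS' A J) hk le_rfl ha) (hN J a))
  refine ⟨fun A a => Classical.epsilon (Lim fun J => FF (WW (v J)) k A a),
    fun A x hx y hy c => by simp only [FF_eq _ hk hx hy c], fun A hA a ha => ?_,
    fun n m h A B e hA hB he c a ha a' ha' d => hd _ _ _ _ _ (hF A a ha) (hF B a' ha')
      fun J => two_side (hS h J) hk hA hB he c ha ha' d⟩
  refine dist_le_zero.1 (hd _ _ _ _ _ (hF A a ha) (hW a) fun J => ?_)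
  simpa [Dk_zero hk hA] using FF_near (hS' A J) hk le_rfl ha

theorem upper_all {k : ℕ} (hk : 1 ≤ k) : ∃ r : Finset H → Finset H, ∀ n m : ℕ,
    n ≤ 2 ^ m ∨ Module.rank ℝ H ≤ m → IsRetr n k (120 * (k + √m)) r := by
  classical
  obtain ⟨z, z1, z2, z3⟩ := centre (H := H) hk
  refine ⟨fun A => A.image (z A), fun n m h => ⟨fun A hA _ => ⟨hA.image _, ?_⟩, fun A _ hA => ?_,
    fun A B hA hA' hB hB' => ?_⟩⟩
  · obtain ⟨c, hc⟩ := (Dk_spec hk A).1.2
    choose! p p1 p2 using fun j (hj : j ∈ A.image c) => mem_image.1 hj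
    refine (card_le_card (t := univ.image fun j => z A (p j)) fun y hy => ?_).trans
      (card_image_le.trans (by simp))
    obtain ⟨x, hx, rfl⟩ := mem_image.1 hy
    have := mem_image_of_mem c hx
    exact mem_image.2 ⟨c x, mem_univ _, z1 A _ (p1 _ this) x hx (hc _ (p1 _ this) x hx (p2 _ this))⟩
  · exact (image_congr (g := id) fun a ha => z2 A hA a ha).trans image_id
  · have c := near_hd hA hB
    have e0 := Metric.hausdorffDist_nonneg (s := (A : Set H)) (t := B)
    generalize Metric.hausdorffDist (A : Set H) B = e at c e0 ⊢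
    have k1 : (1 : ℝ) ≤ k := by exact_mod_cast hk
    have s0 := Real.sqrt_nonneg m
    have s1 : √((m : ℝ) + 1) ≤ √m + 1 := Real.sqrt_le_iff.2
      ⟨by positivity, by nlinarith [Real.sq_sqrt (Nat.cast_nonneg (α := ℝ) m)]⟩
    have q : 2 * (32 * k + 8 * (3 * √((m : ℝ) + 1)) + 1) * e ≤ 120 * (k + √m) * e :=
      mul_le_mul_of_nonneg_right (by linarith) e0
    refine Near.hd_le ⟨fun y hy => ?_, fun y hy => ?_⟩ (by positivity) <;>
      obtain ⟨a, ha, rfl⟩ := mem_image.1 hy
    · obtain ⟨b, hb, d⟩ := c.1 a ha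
      exact ⟨_, mem_image_of_mem _ hb, (z3 n m h A B e hA' hB' e0 c a ha b hb d).trans q⟩
    · obtain ⟨b, hb, d⟩ := c.2 a ha
      exact ⟨_, mem_image_of_mem _ hb, (z3 n m h B A e hB' hA' e0 c.symm a ha b hb d).trans q⟩

end Pool.Agent.Work.MP_dc63d3_gt.K
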